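import Pool.Agent.Work.MP_5c492e_ag.Frame

namespace Pool.Agent.Results.MP_5c492e_ag.ZipRingFG

open ZipDefs

/-- Let `k` be an algebraic closure of the field with `p` elements. For every cocharacter datum
`(G, μ)` and every Borel pair `(B, T)` defined over the prime field with `B ≤ P` and `T ≤ L`, the
ring of automorphic forms on the stack of `G`-zips is a finitely generated `k`-algebra. -/
theorem result (p : ℕ) [Fact p.Prime] (k : Type) [Field k] [CharP k p] [Algebra (ZMod p) k]
    [IsAlgClosure (ZMod p) k] (n : ℕ) (G B T : Subgroup (GL (Fin n) k)) (μ : kˣ →* GL (Fin n) k)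
    (hG : IsReductive G) (hGF : DefinedOverFp p G) (hμ : IsCochar G μ) (hB : IsBorel G B)
    (hT : IsMaxTorus G T) (hTB : T ≤ B) (_hBF : DefinedOverFp p B) (hTF : DefinedOverFp p T)
    (hBP : B ≤ Pminus G μ) (hTL : T ≤ Levi G μ) :
    RzipFG p G μ B T := by
  have := IsAlgClosure.isAlgClosed (ZMod p) (K := k)
  have := ZipFG.lf_of_algebraic p k
  exact ZipFG.rzip_finiteType hG hGF hμ hB hT hTB hTF hBP hTL

end Pool.Agent.Results.MP_5c492e_ag.ZipRingFG
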